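import Pool.Agent.H699.MW.Gr

/-!
MW, ACY: in an acyclic graph two neighbours of `v` reach disjoint sets avoiding `v`.
-/

set_option autoImplicit false

namespace Pool.Agent.H130.MW.ACY

open Pool.Agent.H699.MW

theorem reach {V : Type} [Fintype V] {G : SimpleGraph V} {S : Finset V} {v w : V}
    (hv : v ∈ S) (hw : w ∈ S) {u x : V} (hu : u ∈ S) (huv : u ≠ v)
    (h : Relation.ReflTransGen (fun y z => G.Adj y z ∧ (z ≠ v ∧ z ∈ S)) u x) :
    ∃ hx : x ∈ S, x ≠ v ∧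
      ((G.induce (S : Set V)) \ SimpleGraph.fromEdgeSet
        {s((⟨v, hv⟩ : (S : Set V)), (⟨w, hw⟩ : (S : Set V)))}).Reachable ⟨u, hu⟩ ⟨x, hx⟩ := by
  induction h with
  | refl => exact ⟨hu, huv, SimpleGraph.Reachable.refl _⟩
  | tail h1 h2 ih =>
    obtain ⟨hy, hyv, hr⟩ := ih
    obtain ⟨hadj, hzv, hz⟩ := h2
    refine ⟨hz, hzv, hr.trans (SimpleGraph.Adj.reachable ?_)⟩
    rw [SimpleGraph.sdiff_adj, SimpleGraph.fromEdgeSet_adj]
    refine ⟨hadj, ?_⟩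
    rintro ⟨h3, -⟩
    rw [Set.mem_singleton_iff, Sym2.eq_iff] at h3
    rcases h3 with ⟨h4, -⟩ | ⟨-, h4⟩
    · exact hyv (congrArg Subtype.val h4)
    · exact hzv (congrArg Subtype.val h4)

theorem t_ACY : S_ACY := by
  classical
  intro V _ G S v u u' x hac hv hu hu' huu' h h'
  unfold nb at hu hu'
  rw [Finset.mem_filter, Finset.mem_erase] at hu hu'
  obtain ⟨⟨huv, huS⟩, hau⟩ := hu
  obtain ⟨⟨hu'v, hu'S⟩, hau'⟩ := hu'
  have hstep : ∀ y, Rch G (S.erase v) y x →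
      Relation.ReflTransGen (fun y z => G.Adj y z ∧ (z ≠ v ∧ z ∈ S)) y x := by
    intro y hy
    refine Relation.ReflTransGen.mono ?_ _ _ hy
    intro a b hab
    exact ⟨hab.1, Finset.mem_erase.1 hab.2⟩
  obtain ⟨hx, -, r1⟩ := reach hv huS huS huv (hstep u h)
  obtain ⟨_, -, r2⟩ := reach hv huS hu'S hu'v (hstep u' h')
  have hb := SimpleGraph.isAcyclic_iff_forall_adj_isBridge.1 hac
    (v := (⟨v, hv⟩ : (S : Set V))) (w := (⟨u, huS⟩ : (S : Set V))) hau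
  rw [SimpleGraph.isBridge_iff] at hb
  apply hb
  have hadj : ((G.induce (S : Set V)) \ SimpleGraph.fromEdgeSet
        {s((⟨v, hv⟩ : (S : Set V)), (⟨u, huS⟩ : (S : Set V)))}).Adj ⟨v, hv⟩ ⟨u', hu'S⟩ := by
    rw [SimpleGraph.sdiff_adj, SimpleGraph.fromEdgeSet_adj]
    refine ⟨hau', ?_⟩
    rintro ⟨h3, -⟩
    rw [Set.mem_singleton_iff, Sym2.eq_iff] at h3
    rcases h3 with ⟨-, h4⟩ | ⟨h4, -⟩
    · exact huu' (congrArg Subtype.val h4).symm
    · exact huv (congrArg Subtype.val h4).symm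
  exact hadj.reachable.trans (r2.trans r1.symm)

end Pool.Agent.H130.MW.ACY
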